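import Pool.Agent.helper97.GD.SpecB

/-!
# Row gd:BLN (MP_37e5fa_nt): number of binary digits, levels with small denominators
-/

set_option autoImplicit false

open Filter

namespace Pool.Agent.GD

theorem BLN_len1 (x : ℤ) : |x| < 2 ^ (Nat.digits 2 x.natAbs).length := by
  have h := Nat.lt_base_pow_length_digits (b := 2) (m := x.natAbs) (by norm_num)
  rw [← Int.natCast_natAbs]
  exact_mod_cast h

theorem BLN_len2 (x : ℤ) (hx : x ≠ 0) : (2 : ℤ) ^ (Nat.digits 2 x.natAbs).length ≤ 2 * |x| := by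
  have h := Nat.base_pow_length_digits_le 2 x.natAbs (by norm_num) (by simpa using hx)
  rw [← Int.natCast_natAbs]
  exact_mod_cast h

theorem BLN_core (d f a R : ℤ) (X : ℕ) (hd : d ≠ 0) (ha : a ≠ 0) (hR : 2 * |R| ≤ 2 ^ X)
    (h : d * f = a * 2 ^ X + R) : |len f - X| ≤ ((3 : ℕ) : ℤ) * (|len a + len d| + 1) := by
  have hX : (0 : ℤ) < 2 ^ X := by positivity
  have ha1 : 1 ≤ |a| := Int.one_le_abs ha
  have hD1 : 1 ≤ |d| := Int.one_le_abs hd
  have hDf : |d| * |f| = |a * 2 ^ X + R| := by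
    rw [← h, abs_mul]
  have haX : |a * 2 ^ X| = |a| * 2 ^ X := by rw [abs_mul, abs_of_pos hX]
  have hlo : |a| * 2 ^ X - |R| ≤ |d| * |f| := by
    rw [hDf, ← haX]
    have := abs_sub_abs_le_abs_sub (a * 2 ^ X) (-R)
    rw [abs_neg, sub_neg_eq_add] at this
    exact this
  have hhi : |d| * |f| ≤ |a| * 2 ^ X + |R| := by
    rw [hDf, ← haX]
    exact abs_add_le _ _
  have h0 : (2 : ℤ) ^ X ≤ |a| * 2 ^ X := le_mul_of_one_le_left hX.le ha1
  have h1 : (2 : ℤ) ^ X ≤ 2 * (|d| * |f|) := by linarith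
  have hf : f ≠ 0 := by
    intro h0
    rw [h0, abs_zero] at h1
    linarith
  have h2 : |d| * |f| ≤ 2 * (|a| * 2 ^ X) := by linarith
  obtain ⟨L, hL⟩ : ∃ L, L = (Nat.digits 2 f.natAbs).length := ⟨_, rfl⟩
  obtain ⟨K, hK⟩ : ∃ K, K = (Nat.digits 2 a.natAbs).length := ⟨_, rfl⟩
  obtain ⟨M, hM⟩ : ∃ M, M = (Nat.digits 2 d.natAbs).length := ⟨_, rfl⟩
  have hlf : len f = (L : ℤ) := by rw [hL]; rfl
  have hla : len a = (K : ℤ) := by rw [hK]; rfl
  have hld : len d = (M : ℤ) := by rw [hM]; rfl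
  have f1 := BLN_len1 f
  have f2 := BLN_len2 f hf
  have a1 := BLN_len1 a
  have d1 := BLN_len1 d
  rw [← hL] at f1 f2
  rw [← hK] at a1
  rw [← hM] at d1
  -- upper bound for X
  have u1 : X < 1 + M + L := by
    have : (2 : ℤ) ^ X < 2 ^ (1 + M + L) := by
      rw [pow_add, pow_add, pow_one]
      have e1 : |d| * |f| < 2 ^ M * 2 ^ L := by
        have e2 : |d| * |f| ≤ 2 ^ M * |f| := mul_le_mul_of_nonneg_right d1.le (abs_nonneg f)
        have e3 : (2 : ℤ) ^ M * |f| < 2 ^ M * 2 ^ L := mul_lt_mul_of_pos_left f1 (by positivity)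
        linarith
      linarith
    exact (pow_lt_pow_iff_right₀ (by norm_num : (1 : ℤ) < 2)).1 this
  have u2 : L < 2 + K + X := by
    have : (2 : ℤ) ^ L < 2 ^ (2 + K + X) := by
      rw [pow_add, pow_add]
      have e1 : |f| ≤ |d| * |f| := le_mul_of_one_le_left (abs_nonneg f) hD1
      have e2 : |a| * 2 ^ X < 2 ^ K * 2 ^ X := mul_lt_mul_of_pos_right a1 hX
      have e3 : (2 : ℤ) ^ 2 = 4 := by norm_num
      rw [e3]
      linarith
    exact (pow_lt_pow_iff_right₀ (by norm_num : (1 : ℤ) < 2)).1 this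
  rw [hlf, hla, hld, abs_le]
  have hK0 : |(K : ℤ) + (M : ℤ)| = K + M := abs_of_nonneg (by positivity)
  rw [hK0]
  push_cast
  constructor <;> omega

theorem BLN (hGSM : GSM_stmt) (hGNG : GNG_stmt) (hBLV : BLV_stmt) (hBLT : BLT_stmt) : BLN_stmt := by
  intro U N hN n f hf
  obtain ⟨g1, g2, g3, g4, g5, g6⟩ := hGSM U N hN
  obtain ⟨n1, n2, n3, n4, n5, n6, n7, n8⟩ := hGNG U N hN
  obtain ⟨l1, l2, l3, l4, -, -, -⟩ := hBLV U N hN n
  rcases hBLT U N hN n f hf with hfs | ⟨d, a, e, t, j, hd, hd0, ha, ha0, he, heF, -, hj, hdf, ht⟩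
  · exact l2 _ (g4 _ (g5 f hfs)).1
  · have he0 := n7 e (fun _ => 0) heF (n1 0)
    have hNj := hN.eventually_ge_atTop j
    have hkey : ∀ᶠ k in (U : Filter ℕ), |len (f k) - e k| ≤
        ((3 : ℕ) : ℤ) * (|len (a k) + len (d k)| + 1) := by
      filter_upwards [hdf, hd0, ha0, ht, he0, hNj] with k k1 k2 k3 k4 k5 k6
      rw [abs_zero] at k5
      have h1 := BLN_core (d k) (f k) (a k) (t k) (e k).toNat k2 k3 (by
        have h2 : 1 ≤ N k / j := (Nat.one_le_div_iff hj).2 k6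
        have h3 : (2 : ℤ) ^ 1 ≤ 2 ^ (N k / j) := pow_le_pow_right₀ (by norm_num) h2
        have h4 := mul_le_mul_of_nonneg_left h3 (abs_nonneg (t k))
        rw [pow_one] at h4
        linarith) k1
      rwa [Int.toNat_of_nonneg k5.le] at h1
    have hng : Ng U N (fun k => len (f k) - e k) :=
      n3 _ _ 3 (n2 _ _ (g5 a ha) (g5 d hd)).1 hkey
    have h1 : Lw U N n (fun k => len (f k) - e k) := l2 _ (g4 _ hng).1
    have h2 := (l4 _ _ h1 he).1
    refine l1 _ _ h2 (Eventually.of_forall fun k => ?_)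
    show len (f k) - e k + e k = len (f k)
    ring

end Pool.Agent.GD
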